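import Mathlib

set_option autoImplicit false

namespace Pool.Agent.Results.MP_7f507d_al.Basis

/-- terms in the signature `(·, ¬, 1)` with variables indexed by `ℕ` -/
inductive Tm : Type
  | var (i : ℕ)
  | one
  | mul (s t : Tm)
  | neg (s : Tm)

instance : Mul Tm := ⟨Tm.mul⟩
instance : One Tm := ⟨Tm.one⟩
instance : Neg Tm := ⟨Tm.neg⟩

/-- the value of a term in an algebra whose operation `¬` is written `-` -/
def Tm.ev {A : Type} [Mul A] [One A] [Neg A] (v : ℕ → A) : Tm → A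
  | .var i => v i
  | .one => 1
  | .mul s t => s.ev v * t.ev v
  | .neg s => - s.ev v

/-- equational consequence: the identities derivable from the list `E` -/
inductive Der (E : List (Tm × Tm)) : Tm → Tm → Prop
  | ax (s t : Tm) (σ : ℕ → Tm) : (s, t) ∈ E → Der E (s.ev σ) (t.ev σ)
  | refl (s : Tm) : Der E s s
  | symm {s t : Tm} : Der E s t → Der E t s
  | trans {s t u : Tm} : Der E s t → Der E t u → Der E s u
  | mul {s t s' t' : Tm} : Der E s s' → Der E t t' → Der E (s * t) (s' * t')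
  | neg {s t : Tm} : Der E s t → Der E (-s) (-t)

/-- the three elements `1, c, ¬c` -/
inductive C3 : Type
  | one | c | nc
  deriving DecidableEq

instance : One C3 := ⟨.one⟩

instance : Mul C3 := ⟨fun
  | .one, y => y
  | x, .one => x
  | .c, .c => .c
  | _, _ => .nc⟩

instance : Neg C3 := ⟨fun | .one => .one | .c => .nc | .nc => .c⟩

/-- `⊥_x = x · ¬x` -/
def bt {A : Type} [Mul A] [Neg A] (x : A) : A := x * -x

/-- `⊤_x = ¬ ⊥_x` -/
def tp {A : Type} [Mul A] [Neg A] (x : A) : A := - bt x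

def x : Tm := .var 0
def y : Tm := .var 1
def z : Tm := .var 2

/-- the basis -/
def basis : List (Tm × Tm) :=
  [(x * y * z, x * (y * z)), (x * y, y * x), (x * x, x), (1 * x, x), (- -x, x), (-1, 1),
   (bt (x * y), bt x * bt y),
   (x * tp x, x),
   (x * tp (x * y), -(-(x * (y * tp (x * y))) * -(x * -(y * tp (x * y))))),
   (-(x * tp (x * y)) * -(-x * tp (x * y)), bt (x * y)),
   (-(-(x * y) * tp (x * y * z)),
     x * tp (x * y * z) * (y * tp (x * y * z)) * -(-x * tp (x * y * z) * (-y * tp (x * y * z))))]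

instance : Fintype C3 := ⟨{.one, .c, .nc}, fun a => by cases a <;> simp⟩

/-- models of the basis (used only in the proof) -/
class Md (A : Type) extends CommMonoid A, InvolutiveNeg A where
  idem : ∀ a : A, a * a = a
  n1 : -(1 : A) = 1
  a7 : ∀ a b : A, bt (a * b) = bt a * bt b
  a8 : ∀ a : A, a * tp a = a
  a9 : ∀ a b : A, a * tp (a * b) = -(-(a * (b * tp (a * b))) * -(a * -(b * tp (a * b))))
  a10 : ∀ a b : A, -(a * tp (a * b)) * -(-a * tp (a * b)) = bt (a * b)
  a11 : ∀ a b c : A, -(-(a * b) * tp (a * b * c)) =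
    a * tp (a * b * c) * (b * tp (a * b * c)) * -(-a * tp (a * b * c) * (-b * tp (a * b * c)))

open Md

section
variable {A : Type} [Md A]

lemma bt_neg (a : A) : bt (-a) = bt a := by rw [bt, bt, neg_neg, mul_comm]

lemma bt_tp (a : A) : bt (tp a) = bt a := by
  rw [tp, bt_neg, bt, ← tp, bt, mul_right_comm, a8]

lemma mul_bt {a e : A} (h : bt a = bt e) : a * bt e = bt e := by
  rw [← h, bt, ← mul_assoc, idem]

lemma mul_tp {a e : A} (h : bt a = bt e) : a * tp e = a := by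
  rw [tp, ← h, ← tp, a8]

lemma lev_mul {a b e : A} (h : bt a = bt e) (k : bt b = bt e) : bt (a * b) = bt e := by
  rw [a7, h, k, idem]

lemma boole {a b e : A} (h : bt a = bt e) (k : bt b = bt e) : a = -(-(a * b) * -(a * -b)) := by
  have := a9 a b
  rwa [tp, lev_mul h k, ← tp, mul_tp h, mul_tp k] at this

lemma ultra {e w : A} (hw : bt w = bt e) (h0 : w ≠ bt e) : ∃ F : Set A, w ∈ F ∧
    (∀ a, bt a = bt e → (-a ∈ F ↔ a ∉ F)) ∧
    (∀ a b, bt a = bt e → bt b = bt e → (a * b ∈ F ↔ a ∈ F ∧ b ∈ F)) ∧ bt e ∉ F := by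
  let S : Set (Set A) := {F | (∀ a ∈ F, bt a = bt e) ∧ (∀ a ∈ F, ∀ b ∈ F, a * b ∈ F) ∧ bt e ∉ F}
  obtain ⟨F, hF, ⟨h1, h2, h3⟩, hm⟩ := zorn_subset_nonempty S (fun c hc hch _ =>
    ⟨⋃₀ c, ⟨fun a ⟨G, hG, ha⟩ => (hc hG).1 a ha, fun a ⟨G, hG, ha⟩ b ⟨H, hH, hb⟩ => by
      rcases hch.total hG hH with k | k
      · exact ⟨H, hH, (hc hH).2.1 a (k ha) b hb⟩
      · exact ⟨G, hG, (hc hG).2.1 a ha b (k hb)⟩, fun ⟨G, hG, ha⟩ => (hc hG).2.2 ha⟩,
      fun G hG => Set.subset_sUnion_of_mem hG⟩) {w}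
    ⟨by simpa using hw, by simp [idem], by simpa using h0.symm⟩
  have hwF : w ∈ F := hF rfl
  have key : ∀ a, bt a = bt e → a ∉ F → ∃ f ∈ F, f * a = bt e := fun a ha haF => by
    by_contra k
    push Not at k
    have hG : F ∪ (· * a) '' F ∈ S := by
      refine ⟨?_, ?_, ?_⟩
      · rintro _ (hb | ⟨f, hf, rfl⟩)
        · exact h1 _ hb
        · exact lev_mul (h1 f hf) ha
      · rintro p (hp | ⟨f, hf, rfl⟩) q (hq | ⟨g, hg, rfl⟩)
        · exact .inl (h2 _ hp _ hq)
        · exact .inr ⟨_, h2 _ hp _ hg, mul_assoc _ _ _⟩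
        · exact .inr ⟨_, h2 _ hf _ hq, mul_right_comm _ _ _⟩
        · exact .inr ⟨_, h2 _ hf _ hg, by simp only [mul_mul_mul_comm f a g a, idem]⟩
      · rintro (hb | ⟨f, hf, hb⟩)
        · exact h3 hb
        · exact k f hf hb
    have hH : insert a F ∈ S := by
      refine ⟨?_, ?_, ?_⟩
      · rintro _ (rfl | hb)
        · exact ha
        · exact h1 _ hb
      · rintro p (rfl | hp) q (rfl | hq)
        · rw [idem]; exact .inl rfl
        · exact .inr (hm hG Set.subset_union_left (.inr ⟨_, hq, mul_comm _ _⟩))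
        · exact .inr (hm hG Set.subset_union_left (.inr ⟨_, hp, rfl⟩))
        · exact .inr (h2 _ hp _ hq)
      · rintro (hb | hb)
        · exact k w hwF (by rw [← hb, mul_bt hw])
        · exact h3 hb
    exact haF (hm hH (Set.subset_insert _ _) (.inl rfl))
  refine ⟨F, hwF, fun a ha => ⟨fun h k => h3 (ha ▸ h2 _ k _ h), fun h => ?_⟩,
    fun a b ha hb => ⟨fun h => ?_, fun h => h2 _ h.1 _ h.2⟩, h3⟩
  · by_contra k
    obtain ⟨f, hf, e1⟩ := key a ha h
    obtain ⟨g, hg, e2⟩ := key (-a) ((bt_neg a).trans ha) k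
    have := boole (h1 _ (h2 _ hf _ hg)) ha
    rw [mul_right_comm f g a, e1, mul_assoc f g, e2, mul_comm (bt e) g, mul_bt (h1 g hg),
      mul_bt (h1 f hf), idem, neg_neg] at this
    exact h3 (this ▸ h2 _ hf _ hg)
  · have aux : ∀ a b, bt a = bt e → bt b = bt e → a * b ∈ F → a ∈ F := fun a b ha hb h => by
      by_contra k
      obtain ⟨f, hf, e1⟩ := key a ha k
      have := h2 _ hf _ h
      rw [← mul_assoc, e1, mul_comm, mul_bt hb] at this
      exact h3 this
    exact ⟨aux a b ha hb h, aux b a hb ha (mul_comm a b ▸ h)⟩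

/-- `a` lies below the level of `e` -/
def Bl (e a : A) : Prop := bt a * bt e = bt e

lemma Bl_mul (e a b : A) : Bl e (a * b) ↔ Bl e a ∧ Bl e b := by
  simp only [Bl, a7]
  refine ⟨fun h => ⟨?_, ?_⟩, fun h => by rw [mul_assoc, h.2, h.1]⟩
  · rw [← h, ← mul_assoc, ← mul_assoc, idem]
  · rw [← h, mul_comm (bt a), ← mul_assoc, ← mul_assoc, idem]

lemma Bl_neg (e a : A) : Bl e (-a) ↔ Bl e a := by rw [Bl, Bl, bt_neg]

lemma Bl_one (e : A) : Bl e 1 := by rw [Bl, bt, n1, one_mul, one_mul]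

lemma Bl_lev {e a : A} (h : Bl e a) : bt (a * tp e) = bt e := by rw [a7, bt_tp]; exact h

/-- a separating homomorphism, on the part below a level -/
structure Sep (e : A) (h : A → C3) : Prop where
  one : h 1 = 1
  mul : ∀ a b, Bl e a → Bl e b → h (a * b) = h a * h b
  neg : ∀ a, Bl e a → h (-a) = - h a

lemma exists_sep {u w : A} (huw : bt w = bt u) (h0 : u * -w ≠ bt u) :
    ∃ h, Sep u h ∧ h u ≠ h w := by
  classical
  have hw' := (bt_neg w).trans huw
  obtain ⟨F, hw, h1, h2, h3⟩ := ultra (lev_mul rfl hw') h0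
  have pm : ∀ a b, Bl u a → Bl u b → (a * b * tp u ∈ F ↔ a * tp u ∈ F ∧ b * tp u ∈ F) :=
    fun a b ha hb => by rw [← h2 _ _ (Bl_lev ha) (Bl_lev hb), mul_mul_mul_comm, idem]
  have pn : ∀ a, Bl u a → a * tp u ∈ F ∨ -a * tp u ∈ F := fun a ha => by
    by_contra k
    push Not at k
    have hn := Bl_lev ((Bl_neg u a).2 ha)
    have e := a10 a u
    rw [tp, a7, ha, ← tp] at e
    exact h3 (e ▸ (h2 _ _ ((bt_neg _).trans (Bl_lev ha)) ((bt_neg _).trans hn)).2
      ⟨(h1 _ (Bl_lev ha)).2 k.1, (h1 _ hn).2 k.2⟩)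
  have nm : ∀ a b, Bl u a → Bl u b → (-(a * b) * tp u ∉ F ↔ (a * tp u ∈ F ∧ b * tp u ∈ F) ∧
      ¬ (-a * tp u ∈ F ∧ -b * tp u ∈ F)) := fun a b ha hb => by
    have hab := (Bl_mul u a b).2 ⟨ha, hb⟩
    have na := Bl_lev ((Bl_neg u a).2 ha)
    have nb := Bl_lev ((Bl_neg u b).2 hb)
    have e := a11 a b u
    rw [tp, a7, hab, ← tp] at e
    rw [← h1 _ (Bl_lev ((Bl_neg u _).2 hab)), e, h2 _ _ (lev_mul (Bl_lev ha) (Bl_lev hb))
      ((bt_neg _).trans (lev_mul na nb)), h2 _ _ (Bl_lev ha) (Bl_lev hb), h1 _ (lev_mul na nb),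
      h2 _ _ na nb]
  have ht : tp u ∈ F := (h1 _ (by rw [← bt_neg, ← tp, bt_tp])).2 h3
  refine ⟨fun a => if a * tp u ∈ F then (if -a * tp u ∈ F then .one else .c) else .nc,
    ⟨?_, fun a b ha hb => ?_, fun a ha => ?_⟩, ?_⟩
  · simp only [n1, one_mul, ht, if_true]; rfl
  · have e1 := pm a b ha hb
    have e2 := nm a b ha hb
    split_ifs <;> first | rfl | tauto
  · have := pn a ha
    rw [neg_neg]
    split_ifs <;> first | rfl | tauto
  · obtain ⟨k1, k2⟩ := (h2 _ _ rfl hw').1 hw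
    simp only [mul_tp (rfl : bt u = bt u), mul_tp huw, k1, (h1 _ huw).1 k2, if_true, if_false]
    split_ifs <;> simp

open Classical in
lemma ev_sep {e : A} {h : A → C3} (hs : Sep e h) (v : ℕ → A) (s : Tm) :
    (Bl e (s.ev v) ↔ s.ev (fun i => if Bl e (v i) then (1 : C3) else .c) = 1) ∧
    (Bl e (s.ev v) → h (s.ev v) = s.ev fun i => h (v i)) := by
  induction s with
  | var i => exact ⟨by simp only [Tm.ev]; split_ifs with k <;> simp [k], fun _ => rfl⟩
  | one => exact ⟨iff_of_true (Bl_one e) rfl, fun _ => hs.one⟩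
  | mul s t i1 i2 =>
    have : ∀ p q : C3, p * q = 1 ↔ p = 1 ∧ q = 1 := by decide
    simp only [Tm.ev, Bl_mul, this, i1.1.symm, i2.1.symm, true_and]
    exact fun k => by rw [hs.mul _ _ k.1 k.2, i1.2 k.1, i2.2 k.2]
  | neg s i1 =>
    have : ∀ p : C3, -p = 1 ↔ p = 1 := by decide
    simp only [Tm.ev, Bl_neg, this, i1.1.symm, true_and]
    exact fun k => by rw [hs.neg _ k, i1.2 k]

lemma valid {s t : Tm} (h : ∀ v : ℕ → C3, s.ev v = t.ev v) (v : ℕ → A) : s.ev v = t.ev v := by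
  have triv : ∀ e : A, Sep e fun _ => 1 := fun e => ⟨rfl, fun _ _ _ _ => rfl, fun _ _ => rfl⟩
  have bl : ∀ e : A, Bl e (s.ev v) ↔ Bl e (t.ev v) := fun e => by
    rw [(ev_sep (triv e) v s).1, (ev_sep (triv e) v t).1, h]
  have l1 : Bl (s.ev v) (t.ev v) := (bl _).1 (idem _)
  have l2 : Bl (t.ev v) (s.ev v) := (bl _).2 (idem _)
  have l : bt (t.ev v) = bt (s.ev v) := l2.symm.trans ((mul_comm _ _).trans l1)
  have k1 : s.ev v * -t.ev v = bt (s.ev v) := by
    by_contra k
    obtain ⟨g, hg, k⟩ := exists_sep l k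
    exact k (by rw [(ev_sep hg v s).2 (idem _), (ev_sep hg v t).2 l1, h])
  have k2 : t.ev v * -s.ev v = bt (t.ev v) := by
    by_contra k
    obtain ⟨g, hg, k⟩ := exists_sep l.symm k
    exact k (by rw [(ev_sep hg v t).2 (idem _), (ev_sep hg v s).2 l2, h])
  have e1 := boole rfl l
  have e2 := boole rfl l.symm
  rw [k1, ← tp, mul_tp ((bt_neg _).trans (lev_mul rfl l)), neg_neg] at e1
  rw [k2, ← tp, mul_tp ((bt_neg _).trans (lev_mul rfl l.symm)), neg_neg] at e2
  exact e1.trans ((mul_comm _ _).trans e2.symm)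

end

def st : Setoid Tm := ⟨Der basis, ⟨.refl, .symm, .trans⟩⟩

def Q : Type := Quotient st

def mk (s : Tm) : Q := Quotient.mk st s

lemma ind {P : Q → Prop} (h : ∀ s, P (mk s)) (q : Q) : P q := Quotient.ind h q

instance : Mul Q := ⟨Quotient.map₂ (· * ·) fun _ _ h _ _ k => Der.mul h k⟩
instance : One Q := ⟨mk 1⟩
instance : Neg Q := ⟨Quotient.map (- ·) fun _ _ h => Der.neg h⟩

lemma ax (n : ℕ) (hn : n < basis.length) (a b c : Tm) :
    mk (basis[n].1.ev fun i => [a, b, c].getD i 1) = mk (basis[n].2.ev fun i => [a, b, c].getD i 1) :=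
  Quotient.sound (Der.ax _ _ _ (List.getElem_mem hn))

instance : Md Q where
  mul_assoc := ind fun a => ind fun b => ind fun c => ax 0 (by decide) a b c
  mul_comm := ind fun a => ind fun b => ax 1 (by decide) a b a
  idem := ind fun a => ax 2 (by decide) a a a
  one_mul := ind fun a => ax 3 (by decide) a a a
  mul_one := ind fun a => (ax 1 (by decide) a 1 a).trans (ax 3 (by decide) a a a)
  neg_neg := ind fun a => ax 4 (by decide) a a a
  n1 := ax 5 (by decide) 1 1 1
  a7 := ind fun a => ind fun b => ax 6 (by decide) a b a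
  a8 := ind fun a => ax 7 (by decide) a a a
  a9 := ind fun a => ind fun b => ax 8 (by decide) a b a
  a10 := ind fun a => ind fun b => ax 9 (by decide) a b a
  a11 := ind fun a => ind fun b => ind fun c => ax 10 (by decide) a b c

lemma ev_mk (s : Tm) : s.ev (fun i => mk (.var i)) = mk s := by
  induction s with
  | var i => rfl
  | one => rfl
  | mul s t i1 i2 => rw [Tm.ev, i1, i2]; rfl
  | neg s i1 => rw [Tm.ev, i1]; rfl

lemma ev_ev (σ : ℕ → Tm) (v : ℕ → C3) (s : Tm) : (s.ev σ).ev v = s.ev fun i => (σ i).ev v := by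
  induction s with
  | var i => rfl
  | one => rfl
  | mul s t i1 i2 => exact congrArg₂ (· * ·) i1 i2
  | neg s i1 => exact congrArg (- ·) i1

lemma sound (p : Tm × Tm) (hp : p ∈ basis) (v : ℕ → C3) : p.1.ev v = p.2.ev v := by
  simp only [basis, List.mem_cons, List.not_mem_nil, or_false] at hp
  rcases hp with rfl | rfl | rfl | rfl | rfl | rfl | rfl | rfl | rfl | rfl | rfl <;>
    simp only [bt, tp, x, y, z, HMul.hMul, Mul.mul, Neg.neg, OfNat.ofNat, One.one, Tm.ev] <;>
    cases v 0 <;> cases v 1 <;> cases v 2 <;> rfl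

theorem result (s t : Tm) : Der basis s t ↔ ∀ v : ℕ → C3, s.ev v = t.ev v := by
  refine ⟨fun h v => ?_, fun h => Quotient.exact (s := st) ?_⟩
  · induction h with
    | ax s t σ k => rw [ev_ev, ev_ev]; exact sound _ k _
    | refl => rfl
    | symm _ i => exact i.symm
    | trans _ _ i j => exact i.trans j
    | mul _ _ i j => exact congrArg₂ (· * ·) i j
    | neg _ i => exact congrArg (- ·) i
  · exact (ev_mk s).symm.trans ((valid h _).trans (ev_mk t))

end Pool.Agent.Results.MP_7f507d_al.Basis
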